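import Mathlib

/-!
Project HY: integral points on `y ^ 2 = f(x)` whose image in the Jacobian is divisible by two.
Exact statements of the pieces.
-/

set_option autoImplicit false

namespace Pool.Agent.Y674.HY

open Polynomial NumberField

/-- the integral point `(x, y)` on `y ^ 2 = f(x)`, coefficients bounded by `H` -/
def Pt (d : ℕ) (f : ℤ[X]) (H : ℕ) (x y : ℤ) : Prop :=
  f.natDegree = d ∧ (f.map (Int.castRingHom ℚ)).Separable ∧ 1 ≤ H ∧ (∀ i, |f.coeff i| ≤ (H : ℤ)) ∧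
    y ^ 2 = f.eval x

/-- `ρ` is a square root of `a (x - X)` modulo `f` over `K` -/
def Half (K : Type) [Field K] (f : ℤ[X]) (x : ℤ) (ρ : K[X]) : Prop :=
  f.map (Int.castRingHom K) ∣ ρ ^ 2 - C (f.leadingCoeff : K) * (C (x : K) - X)

/-- the complex roots -/
noncomputable def Rt (f : ℤ[X]) : Finset ℂ := by
  classical exact (f.map (Int.castRingHom ℂ)).roots.toFinset

/-- `√ (a x)` -/
noncomputable def U (f : ℤ[X]) (x : ℤ) : ℝ := Real.sqrt ((f.leadingCoeff : ℝ) * x)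

/-- odd integers attached to the embeddings, at most `d`, all congruent modulo 4 -/
def Pat {I : Type} (d : ℕ) (N : I → ℤ) : Prop :=
  (∀ i, |N i| ≤ (d : ℤ)) ∧ (∀ i, Odd (N i)) ∧ ∀ i j, N i ≡ N j [ZMOD 4]

/-! ### From a half to an integer with nearly proportional conjugates -/

/-- trace and norm of `ρ` -/
def SETUP : Prop := ∀ (d : ℕ), Odd d → ∀ (f : ℤ[X]), f.natDegree = d →
  (f.map (Int.castRingHom ℚ)).Separable → ∀ x y : ℤ, y ^ 2 = f.eval x →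
  ∀ (K : Type) [Field K] [NumberField K] (ρ : K[X]), Half K f x ρ →
    (Rt f).card = d ∧ ∃ (w : 𝓞 K) (c : ℂ), ∀ σ : K →+* ℂ,
      (∀ r ∈ Rt f, ((ρ.map σ).eval r) ^ 2 = (f.leadingCoeff : ℂ) * ((x : ℂ) - r)) ∧
      σ (w : K) = ∑ r ∈ Rt f, (ρ.map σ).eval r ∧ ∏ r ∈ Rt f, (ρ.map σ).eval r = c

/-- square roots of `u ^ 2 - b r` -/
def EST : Prop := ∀ (R : Finset ℂ) (u B : ℝ), 0 < u → 0 ≤ B → B < u ^ 2 → Odd R.card →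
  ∀ (I : Type) (g : I → ℂ → ℂ) (b : ℂ → ℂ), (∀ r ∈ R, ‖b r‖ ≤ B) →
  (∀ i, ∀ r ∈ R, g i r ^ 2 = (u : ℂ) ^ 2 - b r) →
  (∀ i j, ∏ r ∈ R, g i r = ∏ r ∈ R, g j r) →
  ∃ N : I → ℤ, Pat R.card N ∧ ∀ i, ‖∑ r ∈ R, g i r - (N i : ℂ) * (u : ℂ)‖ ≤ R.card * (B / u)

/-- the size of the roots, and the sign of `a x` -/
def ROOT : Prop := ∀ (d : ℕ), Odd d → ∀ (f : ℤ[X]) (H : ℕ) (x y : ℤ), Pt d f H x y →
  (∀ r ∈ Rt f, ‖(f.leadingCoeff : ℂ) * r‖ ≤ 2 * H) ∧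
  (4 * (H : ℤ) ≤ |x| → 0 < f.leadingCoeff * x)

/-- the outcome: SETUP, EST and ROOT together -/
def KEY : Prop := ∀ (d : ℕ), Odd d → ∀ (f : ℤ[X]) (H : ℕ) (x y : ℤ), Pt d f H x y →
  4 * (H : ℤ) ≤ |x| → ∀ (K : Type) [Field K] [NumberField K] (ρ : K[X]), Half K f x ρ →
    0 < f.leadingCoeff * x ∧ ∃ (w : 𝓞 K) (N : (K →+* ℂ) → ℤ), Pat d N ∧
      ∀ σ : K →+* ℂ, ‖σ (w : K) - (N σ : ℂ) * (U f x : ℂ)‖ ≤ d * (2 * H / U f x)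

/-! ### The conclusion for a rational integer near `N u` -/

/-- from the structure theorem `Pool.Agent.W273.Z.gen` -/
def APX : Prop := ∀ d : ℕ, Odd d → 3 ≤ d → ∃ k : ℕ, ∀ A : ℕ, 1 ≤ A → ∃ C : ℕ,
  ∀ (f : ℤ[X]) (H : ℕ) (x y : ℤ), Pt d f H x y → 0 < f.leadingCoeff * x →
  ∀ Z N : ℤ, N ≠ 0 → |N| ≤ (A : ℤ) → |(Z : ℝ) - N * U f x| ≤ A * H / U f x →
    |(x : ℝ)| ≤ C * (H : ℝ) ^ k

/-- degree not divisible by 4: the trace -/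
def TRC : Prop := ∀ (F : Type) [Field F] [NumberField F], ¬ 4 ∣ Module.finrank ℚ F →
  ∀ (d : ℕ) (N : (F →+* ℂ) → ℤ), Pat d N → ∀ (w : 𝓞 F) (u η : ℝ), 
  (∀ σ, ‖σ (w : F) - (N σ : ℂ) * (u : ℂ)‖ ≤ η) →
  ∃ Z N0 : ℤ, N0 ≠ 0 ∧ |N0| ≤ (Module.finrank ℚ F * d : ℕ) ∧
    |(Z : ℝ) - N0 * u| ≤ Module.finrank ℚ F * η

/-- at most two conjugates -/
def QUAD : Prop := ∀ (K : Type) [Field K] [NumberField K] (d : ℕ) (N : (K →+* ℂ) → ℤ), Pat d N →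
  ∀ (w : 𝓞 K) (u η : ℝ), (∀ σ, ‖σ (w : K) - (N σ : ℂ) * (u : ℂ)‖ ≤ η) →
  (Set.range fun σ : K →+* ℂ => σ (w : K)).ncard ≤ 2 →
  ∃ Z N0 : ℤ, N0 ≠ 0 ∧ |N0| ≤ (2 * d : ℕ) ∧ |(Z : ℝ) - N0 * u| ≤ 2 * η

/-! ### Algebra -/

/-- rank at most two implies at most two patterns -/
def CRY : Prop := ∀ (G : Type) [Group G] [Finite G] (ι : Type) [Fintype ι] (π : G →* Equiv.Perm ι)
  (d : ℕ) (N : ι → ℤ), Pat d N →
  Module.finrank ℚ (Submodule.span ℚ (Set.range fun (g : G) (i : ι) => (N (π g i) : ℚ))) ≤ 2 →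
  ∃ S : Subgroup G, S.index ≤ 2 ∧ ∀ g ∈ S, ∀ i, N (π g i) = N i

/-- two patterns imply two conjugates; `L` contains all conjugates of `F` -/
def CONJ : Prop := ∀ (F L : Type) [Field F] [NumberField F] [Field L] [NumberField L]
  [IsGalois ℚ L] (ψ : L →+* ℂ), (∀ (σ : F →+* ℂ) (a : F), ∃ b : L, ψ b = σ a) →
  ∀ (N : (F →+* L) → ℤ) (w : 𝓞 F) (u η : ℝ), η < 1 / 2 →
  (∀ σ : F →+* L, ‖ψ (σ (w : F)) - (N σ : ℂ) * (u : ℂ)‖ ≤ η) →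
  ∀ S : Subgroup (L ≃ₐ[ℚ] L), S.index ≤ 2 →
  (∀ g ∈ S, ∀ σ : F →+* L, N ((g : L →+* L).comp σ) = N σ) →
  (Set.range fun σ : F →+* ℂ => σ (w : F)).ncard ≤ 2

/-! ### The subspace theorem -/

/-- infinitely many such integers: the conjugate patterns span a space of dimension at most two -/
def SCH : Prop := ∀ (F L : Type) [Field F] [NumberField F] [Field L] [NumberField L]
  [IsGalois ℚ L] (ψ : L →+* ℂ), (∃ i : L, ψ i = Complex.I) →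
  (∀ (σ : F →+* ℂ) (a : F), ∃ b : L, ψ b = σ a) →
  ∀ (N : (F →+* L) → ℤ), (∀ σ, N σ ≠ 0) → ∀ (w : ℕ → 𝓞 F) (u : ℕ → ℝ),
  Filter.Tendsto u Filter.atTop Filter.atTop →
  (∀ (t : ℕ) (σ : F →+* L), ‖ψ (σ (w t : F)) - (N σ : ℂ) * (u t : ℂ)‖ ≤ u t ^ (-(3 / 4) : ℝ)) →
  Module.finrank ℚ (Submodule.span ℚ (Set.range fun (g : L ≃ₐ[ℚ] L) (σ : F →+* L) =>
    (N ((g : L →+* L).comp σ) : ℚ))) ≤ 2

/-! ### Points with trivial image under the descent map modulo rational numbers -/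

/-- expansion of the square root of `u ^ 2 - z` -/
def EXPS : Prop := ∀ d : ℕ, ∃ (β : ℕ → ℝ) (C : ℝ), β 0 = 1 ∧ (∀ j, β j ≠ 0) ∧ 0 ≤ C ∧
  ∀ (u : ℝ) (z : ℂ), 0 < u → 2 * ‖z‖ ≤ u ^ 2 → ∃ θ : ℂ, θ ^ 2 = (u : ℂ) ^ 2 - z ∧
    ‖θ - u * ∑ j ∈ Finset.range (d + 1), (β j : ℂ) * (z / (u : ℂ) ^ 2) ^ j‖ ≤
      C * u * (‖z‖ / u ^ 2) ^ (d + 1)

/-- Liouville's inequality for integral combinations of powers of the (scaled) roots -/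
def LIOU : Prop := ∀ (e : ℕ) (h : ℤ[X]) (H : ℕ), 1 ≤ e → h.natDegree = e →
  (h.map (Int.castRingHom ℚ)).Separable → 1 ≤ H → (∀ i, |h.coeff i| ≤ (H : ℤ)) →
  ∀ (c : ℂ → ℤ) (A : ℝ), 0 ≤ A → (∀ r ∈ Rt h, |(c r : ℝ)| ≤ A) → ∀ (m : ℤ) (j : ℕ) (α : ℂ),
  α = ∑ r ∈ Rt h, (c r : ℂ) * ((h.leadingCoeff : ℂ) * r) ^ j - m →
  α = 0 ∨ 1 ≤ ‖α‖ * (1 + e * A * (2 * H : ℝ) ^ j + |(m : ℝ)|) ^ e.factorial

/-- the image of `x - θ` is trivial modulo rational numbers and squares -/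
def FAKE : Prop := ∀ e : ℕ, 2 ≤ e → ∃ C₀ k : ℕ, ∀ (h : ℤ[X]) (H : ℕ), h.natDegree = e →
  (h.map (Int.castRingHom ℚ)).Separable → 1 ≤ H → (∀ i, |h.coeff i| ≤ (H : ℤ)) →
  ∀ (x : ℤ) (D : ℚ) (ρ : ℚ[X]), D ≠ 0 →
  h.map (Int.castRingHom ℚ) ∣ C D * ρ ^ 2 - (C (x : ℚ) - X) →
  |(x : ℝ)| ≤ C₀ * (H : ℝ) ^ k

end Pool.Agent.Y674.HY
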