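import Mathlib
import Pool.Agent.Y674.HY.Stm

/-!
Linear algebra of the embeddings of a number field.
-/

set_option autoImplicit false

open Finset Filter Topology

namespace Pool.Agent.Y674.HY

open NumberField

section A

variable {F : Type} [Field F] [NumberField F]

theorem tr_sum (a : F) : ((Algebra.trace ℚ F a : ℚ) : ℂ) = ∑ τ : F →+* ℂ, τ a := by
  have h1 := trace_eq_sum_embeddings (K := ℚ) (L := F) ℂ (x := a)
  rw [eq_ratCast] at h1
  rw [h1]
  exact Fintype.sum_equiv (RingHom.equivRatAlgHom F ℂ).symm _ _ (fun σ => rfl)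

theorem emb_indep {m : ℕ} (v : Fin m → F) (hv : LinearIndependent ℚ v) (c : Fin m → ℂ)
    (h : ∀ τ : F →+* ℂ, ∑ l, c l * τ (v l) = 0) : c = 0 := by
  classical
  funext l0
  obtain ⟨g, hg⟩ := LinearMap.exists_extend ((Module.Basis.span hv).coord l0)
  have hg' : ∀ l, g (v l) = if l = l0 then 1 else 0 := by
    intro l
    have h1 := LinearMap.congr_fun hg ⟨v l, Submodule.subset_span ⟨l, rfl⟩⟩
    rw [← Module.Basis.span_apply hv l, Module.Basis.coord_apply, Module.Basis.repr_self,
      Finsupp.single_apply] at h1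
    rw [← h1, LinearMap.comp_apply, Submodule.subtype_apply, Module.Basis.span_apply]
  set β : F := ((Algebra.traceForm ℚ F).toDual (traceForm_nondegenerate ℚ F)).symm g with hβ
  have h1 : ∀ l, Algebra.trace ℚ F (β * v l) = if l = l0 then 1 else 0 := fun l => by
    rw [← hg']
    exact LinearMap.BilinForm.apply_toDual_symm_apply (hB := traceForm_nondegenerate ℚ F) g (v l)
  have h2 : ∑ τ : F →+* ℂ, τ β * ∑ l, c l * τ (v l) = c l0 := by
    simp_rw [Finset.mul_sum]
    rw [Finset.sum_comm]
    have : ∀ l, ∑ τ : F →+* ℂ, τ β * (c l * τ (v l)) = c l * (if l = l0 then 1 else 0) := by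
      intro l
      have h3 := tr_sum (β * v l)
      rw [h1] at h3
      simp only [map_mul] at h3
      have h4 : ((if l = l0 then 1 else 0 : ℚ) : ℂ) = (if l = l0 then 1 else 0 : ℂ) := by
        split_ifs <;> simp
      rw [← h4, h3, Finset.mul_sum]
      exact Finset.sum_congr rfl fun τ _ => by ring
    simp [this]
  rw [← h2]
  simp [h]

variable {L : Type} [Field L] [NumberField L]

/-- every complex embedding of `F` factors through `ψ` -/
theorem factor (ψ : L →+* ℂ) (hfac : ∀ (σ : F →+* ℂ) (a : F), ∃ b : L, ψ b = σ a)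
    (τ : F →+* ℂ) : ∃ σ : F →+* L, ψ.comp σ = τ := by
  choose g hg using hfac τ
  have hinj := ψ.injective
  refine ⟨{ toFun := g, map_one' := ?_, map_mul' := ?_, map_zero' := ?_, map_add' := ?_ }, ?_⟩
  · apply hinj
    rw [hg, map_one, map_one]
  · intro a b
    apply hinj
    rw [hg, map_mul, map_mul, hg, hg]
  · apply hinj
    rw [hg, map_zero, map_zero]
  · intro a b
    apply hinj
    rw [hg, map_add, map_add, hg, hg]
  · ext a
    exact hg a

theorem emb_indepL (ψ : L →+* ℂ) (hfac : ∀ (σ : F →+* ℂ) (a : F), ∃ b : L, ψ b = σ a)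
    {m : ℕ} (v : Fin m → F) (hv : LinearIndependent ℚ v) (c : Fin m → L)
    (h : ∀ τ : F →+* L, ∑ l, c l * τ (v l) = 0) : c = 0 := by
  have h1 := emb_indep v hv (fun l => ψ (c l)) (by
    intro τ
    obtain ⟨σ, rfl⟩ := factor ψ hfac τ
    have := congrArg ψ (h σ)
    rw [map_sum, map_zero] at this
    rw [← this]
    exact Finset.sum_congr rfl fun l _ => by simp)
  funext l
  have h2 := congrFun h1 l
  exact (map_eq_zero ψ).1 h2

/-- a nonsingular square submatrix -/
theorem rows (ψ : L →+* ℂ) (hfac : ∀ (σ : F →+* ℂ) (a : F), ∃ b : L, ψ b = σ a)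
    {m : ℕ} (v : Fin m → F) (hv : LinearIndependent ℚ v) :
    ∃ s : Fin m → (F →+* L), LinearIndependent L (fun (i : Fin m) (j : Fin m) => s i (v j)) := by
  classical
  set r : (F →+* L) → (Fin m → L) := fun σ j => σ (v j) with hr
  have hspan : Submodule.span L (Set.range r) = ⊤ := by
    by_contra hne
    obtain ⟨f, hf, hle⟩ := Submodule.exists_le_ker_of_lt_top _ (lt_top_iff_ne_top.2 hne)
    apply hf
    set c : Fin m → L := fun l => f (Pi.single l 1) with hc
    have hfc : ∀ x : Fin m → L, f x = ∑ l, c l * x l := by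
      intro x
      have hx : x = ∑ l, x l • (Pi.single l (1 : L) : Fin m → L) := by
        funext j
        simp [Finset.sum_apply, Pi.single_apply]
      conv_lhs => rw [hx]
      rw [map_sum]
      refine Finset.sum_congr rfl fun l _ => ?_
      rw [map_smul, smul_eq_mul, hc, mul_comm]
    have hc0 := emb_indepL ψ hfac v hv c (by
      intro τ
      rw [← hfc (r τ)]
      exact hle (Submodule.subset_span ⟨τ, rfl⟩))
    ext x
    rw [LinearMap.comp_apply, hfc, hc0]
    simp
  obtain ⟨f, hf, -, hli⟩ := Submodule.exists_fun_fin_finrank_span_eq L (Set.range r)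
  have hm : Module.finrank L (Submodule.span L (Set.range r)) = m := by
    rw [hspan, finrank_top, Module.finrank_fin_fun]
  choose s hs using fun i => hf (Fin.cast hm.symm i)
  refine ⟨s, ?_⟩
  have h1 : (fun (i : Fin m) (j : Fin m) => s i (v j)) = f ∘ Fin.cast hm.symm := by
    funext i
    exact hs i
  rw [h1]
  exact hli.comp _ (Fin.cast_injective _)

/-- the kernel of a nonzero functional has smaller rank -/
theorem rank_drop {M : Type} [AddCommGroup M] [Module.Free ℤ M] [Module.Finite ℤ M]
    (f : M →ₗ[ℤ] ℤ) (hf : f ≠ 0) :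
    Module.finrank ℤ (LinearMap.ker f) < Module.finrank ℤ M := by
  have h1 := Submodule.finrank_quotient_add_finrank (LinearMap.ker f)
  have h2 : 0 < Module.finrank ℤ (M ⧸ LinearMap.ker f) := by
    rw [(f.quotKerEquivRange).finrank_eq]
    have : Nontrivial (LinearMap.range f) := by
      rw [Submodule.nontrivial_iff_ne_bot]
      intro h
      exact hf (LinearMap.range_eq_bot.1 h)
    exact Module.finrank_pos
  omega

/-- base change of linear independence -/
theorem indep_base {E : Type} [Fintype E] {r : ℕ} (e : Fin r → (E → ℚ))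
    (he : LinearIndependent ℚ e) :
    LinearIndependent L (fun (j : Fin r) (σ : E) => ((e j σ : ℚ) : L)) := by
  classical
  rw [Fintype.linearIndependent_iff]
  intro c hc l0
  obtain ⟨g, hg⟩ := LinearMap.exists_extend ((Module.Basis.span he).coord l0)
  have hg' : ∀ l, g (e l) = if l = l0 then 1 else 0 := by
    intro l
    have h1 := LinearMap.congr_fun hg ⟨e l, Submodule.subset_span ⟨l, rfl⟩⟩
    rw [← Module.Basis.span_apply he l, Module.Basis.coord_apply, Module.Basis.repr_self,
      Finsupp.single_apply] at h1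
    rw [← h1, LinearMap.comp_apply, Submodule.subtype_apply, Module.Basis.span_apply]
  have hgs : ∀ x : E → ℚ, g x = ∑ σ, g (Pi.single σ 1) * x σ := by
    intro x
    have hx : x = ∑ σ, x σ • (Pi.single σ (1 : ℚ) : E → ℚ) := by
      funext j
      simp [Finset.sum_apply, Pi.single_apply]
    conv_lhs => rw [hx]
    rw [map_sum]
    refine Finset.sum_congr rfl fun l _ => ?_
    rw [map_smul, smul_eq_mul, mul_comm]
  have h2 : ∀ σ, ∑ j, c j * ((e j σ : ℚ) : L) = 0 := by
    intro σ
    have := congrFun hc σ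
    simpa [Finset.sum_apply] using this
  have h3 : ∑ σ, ((g (Pi.single σ 1) : ℚ) : L) * ∑ j, c j * ((e j σ : ℚ) : L) = c l0 := by
    simp_rw [Finset.mul_sum]
    rw [Finset.sum_comm]
    have : ∀ j, ∑ σ, ((g (Pi.single σ 1) : ℚ) : L) * (c j * ((e j σ : ℚ) : L)) =
        c j * (if j = l0 then 1 else 0) := by
      intro j
      have h4 := hg' j
      rw [hgs] at h4
      have h5 : ((if j = l0 then 1 else 0 : ℚ) : L) = (if j = l0 then 1 else 0 : L) := by
        split_ifs <;> simp
      rw [← h5, ← h4]
      push_cast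
      rw [Finset.mul_sum]
      exact Finset.sum_congr rfl fun σ _ => by ring
    simp [this]
  rw [← h3]
  simp [h2]

end A

end Pool.Agent.Y674.HY
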