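import Mathlib
import Pool.Agent.Y674.HY.Sch1
import Pool.Agent.Y674.HL.Sub
import Pool.Agent.Y674.HL.Emb

/-!
The subspace theorem for integers with nearly proportional conjugates.
-/

set_option autoImplicit false

open Finset Filter Topology

namespace Pool.Agent.Y674.HY

open NumberField

section B

variable {F L : Type} [Field F] [NumberField F] [Field L] [NumberField L]

/-- the integral matrix of the forms -/
noncomputable def Fm {m : ℕ} (N : (F →+* L) → ℤ) (s : Fin m → (F →+* L)) (b : Fin m → 𝓞 F)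
    (k0 : Fin m) : Matrix (Fin m) (Fin m) (𝓞 L) :=
  Matrix.of fun k j => if k = k0 then RingOfIntegers.mapRingHom (s k0) (b j) else
    ((N (s k0) : ℤ) : 𝓞 L) * RingOfIntegers.mapRingHom (s k) (b j) -
      ((N (s k) : ℤ) : 𝓞 L) * RingOfIntegers.mapRingHom (s k0) (b j)

theorem Fm_coe {m : ℕ} (N : (F →+* L) → ℤ) (s : Fin m → (F →+* L)) (b : Fin m → 𝓞 F)
    (k0 : Fin m) (k j : Fin m) : ((Fm N s b k0 k j : 𝓞 L) : L) =
      if k = k0 then s k0 (b j : F) else
        (N (s k0) : L) * s k (b j : F) - (N (s k) : L) * s k0 (b j : F) := by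
  unfold Fm
  rw [Matrix.of_apply]
  split_ifs with h
  · rfl
  · push_cast
    rfl

theorem Fm_det {m : ℕ} (N : (F →+* L) → ℤ) (hN : ∀ σ, N σ ≠ 0) (s : Fin m → (F →+* L))
    (b : Fin m → 𝓞 F) (k0 : Fin m)
    (hs : LinearIndependent L (fun (i : Fin m) (j : Fin m) => s i (b j : F))) :
    (Fm N s b k0).det ≠ 0 := by
  classical
  intro hdet
  obtain ⟨c, hc, hc0⟩ := Matrix.exists_vecMul_eq_zero_iff.2 hdet
  apply hc
  rw [Fintype.linearIndependent_iff] at hs
  set d : Fin m → L := fun k => if k = k0 then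
    (c k0 : L) - ∑ k ∈ univ.erase k0, (c k : L) * (N (s k) : L) else (c k : L) * (N (s k0) : L) with hd
  have h1 : ∑ k, d k • (fun j : Fin m => s k (b j : F)) = 0 := by
    funext j
    have h2 := congrArg (fun a : 𝓞 L => (a : L)) (congrFun hc0 j)
    simp only [Matrix.vecMul, dotProduct, Pi.zero_apply] at h2
    push_cast at h2
    have h2' : ∑ k, (c k : L) * ((Fm N s b k0 k j : 𝓞 L) : L) = 0 := by
      simpa using h2
    rw [← Finset.add_sum_erase _ _ (Finset.mem_univ k0)] at h2' 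
    rw [Finset.sum_apply, ← Finset.add_sum_erase _ _ (Finset.mem_univ k0)]
    simp only [Pi.smul_apply, smul_eq_mul, Pi.zero_apply]
    have e1 : ∑ k ∈ univ.erase k0, (c k : L) * ((Fm N s b k0 k j : 𝓞 L) : L) =
        ∑ k ∈ univ.erase k0, ((c k : L) * (N (s k0) : L)) * s k (b j : F) -
          (∑ k ∈ univ.erase k0, (c k : L) * (N (s k) : L)) * s k0 (b j : F) := by
      rw [Finset.sum_mul, ← Finset.sum_sub_distrib]
      refine Finset.sum_congr rfl fun k hk => ?_
      rw [Fm_coe, if_neg (Finset.ne_of_mem_erase hk)]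
      ring
    have e2 : ∑ k ∈ univ.erase k0, d k * s k (b j : F) =
        ∑ k ∈ univ.erase k0, ((c k : L) * (N (s k0) : L)) * s k (b j : F) := by
      refine Finset.sum_congr rfl fun k hk => ?_
      simp only [hd, if_neg (Finset.ne_of_mem_erase hk)]
    rw [e2]
    rw [e1, Fm_coe, if_pos rfl] at h2'
    simp only [hd, if_true]
    linear_combination h2'
  have h2 := hs d h1
  have h3 : ∀ k, k ≠ k0 → c k = 0 := by
    intro k hk
    have h4 := h2 k
    simp only [hd, if_neg hk] at h4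
    have h5 : (N (s k0) : L) ≠ 0 := by exact_mod_cast hN (s k0)
    have h6 : (c k : L) = 0 := by
      rcases mul_eq_zero.1 h4 with h | h
      · exact h
      · exact absurd h h5
    exact_mod_cast h6
  have h4 : c k0 = 0 := by
    have h5 := h2 k0
    simp only [hd, if_true] at h5
    have h6 : ∑ k ∈ univ.erase k0, (c k : L) * (N (s k) : L) = 0 := by
      refine Finset.sum_eq_zero fun k hk => ?_
      rw [h3 k (Finset.ne_of_mem_erase hk)]
      simp
    rw [h6, sub_zero] at h5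
    exact_mod_cast h5
  funext k
  by_cases hk : k = k0
  · rw [hk]
    exact h4
  · exact h3 k hk


theorem Fm_sum {m : ℕ} (N : (F →+* L) → ℤ) (s : Fin m → (F →+* L))
    (b : Fin m → 𝓞 F) (k0 k : Fin m) (z : Fin m → ℤ) (w : 𝓞 F)
    (hw : w = ∑ j, z j • b j) :
    ∑ j, ((Fm N s b k0 k j : 𝓞 L) : L) * (z j : L) = if k = k0 then s k0 (w : F) else
        (N (s k0) : L) * s k (w : F) - (N (s k) : L) * s k0 (w : F) := by
  have hs : ∀ σ : F →+* L, σ (w : F) = ∑ j, σ (b j : F) * (z j : L) := by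
    intro σ
    rw [hw]
    push_cast
    rw [map_sum]
    refine Finset.sum_congr rfl fun j _ => ?_
    rw [zsmul_eq_mul, map_mul, map_intCast, mul_comm]
  simp only [Fm_coe]
  by_cases h : k = k0
  · simp only [h, if_true]
    rw [hs]
  · simp only [h, if_false]
    rw [hs, hs, Finset.mul_sum, Finset.mul_sum, ← Finset.sum_sub_distrib]
    refine Finset.sum_congr rfl fun j _ => ?_
    ring

/-- **the minimal submodule has rank at most two** -/
theorem low_rank [IsGalois ℚ L] (ψ : L →+* ℂ) (hI : ∃ i : L, ψ i = Complex.I)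
    (hfac : ∀ (σ : F →+* ℂ) (a : F), ∃ b : L, ψ b = σ a)
    (N : (F →+* L) → ℤ) (hN : ∀ σ, N σ ≠ 0) (w : ℕ → 𝓞 F) (u : ℕ → ℝ)
    (hu : Tendsto u atTop atTop)
    (hw : ∀ (t : ℕ) (σ : F →+* L), ‖ψ (σ (w t : F)) - (N σ : ℂ) * (u t : ℂ)‖ ≤
      u t ^ (-(3 / 4) : ℝ)) :
    ∃ (m : ℕ) (b : Fin m → 𝓞 F), m ≤ 2 ∧ ∃ᶠ t in atTop, ∃ z : Fin m → ℤ,
      w t = ∑ j, z j • b j := by
  classical
  obtain ⟨i0, hi0⟩ := hI
  obtain ⟨cj, hcj⟩ := Pool.Agent.Y674.HL.exists_cj ψ
  have hi0int : IsIntegral ℤ i0 := by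
    refine ⟨Polynomial.X ^ 2 + 1, ?_, ?_⟩
    · monicity!
    · have : i0 ^ 2 = -1 := by
        apply ψ.injective
        rw [map_pow, hi0, Complex.I_sq, map_neg, map_one]
      simp [this]
  set iK : 𝓞 L := ⟨i0, hi0int⟩ with hiK
  have hiKψ : ψ (iK : L) = Complex.I := hi0
  let P : ℕ → Prop := fun m => ∃ Λ : Submodule ℤ (𝓞 F), Module.finrank ℤ Λ = m ∧
    ∃ᶠ t in atTop, w t ∈ Λ
  have hP : ∃ m, P m := ⟨_, ⊤, rfl, Eventually.frequently (Eventually.of_forall fun t =>
    Submodule.mem_top)⟩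
  obtain ⟨Λ, hΛm, hfr⟩ := Nat.find_spec hP
  set m := Nat.find hP with hmdef
  have hmin : ∀ Λ' : Submodule ℤ (𝓞 F), (∃ᶠ t in atTop, w t ∈ Λ') →
      m ≤ Module.finrank ℤ Λ' := fun Λ' h => Nat.find_min' hP ⟨Λ', rfl, h⟩
  have b : Module.Basis (Fin m) ℤ Λ := Module.finBasisOfFinrankEq ℤ Λ hΛm
  have hrep : ∀ t, (h : w t ∈ Λ) → w t = ∑ j, b.repr ⟨w t, h⟩ j • (b j : 𝓞 F) := by
    intro t h
    have h1 := congrArg (fun x : Λ => (x : 𝓞 F)) (b.sum_repr ⟨w t, h⟩)
    refine h1.symm.trans ?_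
    push_cast
    rfl
  refine ⟨m, fun j => (b j : 𝓞 F), ?_, hfr.mono fun t h => ⟨_, hrep t h⟩⟩
  by_contra hm3
  push Not at hm3
  -- linear independence
  have hind : LinearIndependent ℚ (fun j : Fin m => ((b j : 𝓞 F) : F)) := by
    rw [← LinearIndependent.iff_fractionRing ℤ ℚ]
    have h1 : LinearIndependent ℤ (fun j : Fin m => (b j : 𝓞 F)) :=
      b.linearIndependent.map' Λ.subtype (Submodule.ker_subtype Λ)
    have h2 := h1.map' ((algebraMap (𝓞 F) F).toAddMonoidHom.toIntLinearMap) (by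
      rw [LinearMap.ker_eq_bot]
      exact RingOfIntegers.coe_injective)
    exact h2
  obtain ⟨s, hs⟩ := rows ψ hfac (fun j : Fin m => ((b j : 𝓞 F) : F)) hind
  set k0 : Fin m := ⟨0, by omega⟩ with hk0
  -- the bound of the pattern
  obtain ⟨Q, hQ1, hQ⟩ : ∃ Q : ℝ, 1 ≤ Q ∧ ∀ σ, |(N σ : ℝ)| ≤ Q := by
    refine ⟨1 + ∑ σ, |(N σ : ℝ)|, ?_, fun σ => ?_⟩
    · have : 0 ≤ ∑ σ, |(N σ : ℝ)| := Finset.sum_nonneg fun _ _ => abs_nonneg _
      linarith
    · have := Finset.single_le_sum (f := fun σ => |(N σ : ℝ)|) (fun _ _ => abs_nonneg _)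
        (Finset.mem_univ σ)
      linarith
  set C : ℝ := 2 * Q + 1 with hC
  have hC1 : 1 ≤ C := by linarith
  have hC0 : 0 < C := by linarith
  -- good indices
  have hev : ∀ᶠ t in atTop, 2 ≤ u t ∧ (m : ℝ) * Real.log C ≤ 1 / 4 * Real.log (u t) ∧
      Real.log C ≤ Real.log (u t) := by
    have hlu : Tendsto (fun t => Real.log (u t)) atTop atTop := Real.tendsto_log_atTop.comp hu
    have h1 : ∀ᶠ t in atTop, (m : ℝ) * Real.log C ≤ 1 / 4 * Real.log (u t) :=
      (hlu.const_mul_atTop (by norm_num : (0 : ℝ) < 1 / 4)).eventually_ge_atTop _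
    exact (hu.eventually_ge_atTop 2).and (h1.and (hlu.eventually_ge_atTop _))
  obtain ⟨φ, hφ, hφP⟩ := Filter.extraction_of_frequently_atTop (hfr.and_eventually hev)
  have hmem : ∀ t, w (φ t) ∈ Λ := fun t => (hφP t).1
  set z : ℕ → Fin m → ℤ := fun t j => b.repr ⟨w (φ t), hmem t⟩ j with hz
  have hzw : ∀ t, w (φ t) = ∑ j, z t j • (b j : 𝓞 F) := fun t => hrep _ _
  have hu2 : ∀ t, 2 ≤ u (φ t) := fun t => (hφP t).2.1
  have hu1 : ∀ t, 1 ≤ u (φ t) := fun t => by linarith [hu2 t]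
  have hu0 : ∀ t, 0 < u (φ t) := fun t => by linarith [hu1 t]
  have hul : ∀ t, 0 ≤ Real.log (u (φ t)) := fun t => Real.log_nonneg (hu1 t)
  have hsm : ∀ t, u (φ t) ^ (-(3 / 4) : ℝ) ≤ 1 := fun t =>
    Real.rpow_le_one_of_one_le_of_nonpos (hu1 t) (by norm_num)
  have hsp : ∀ t, 0 < u (φ t) ^ (-(3 / 4) : ℝ) := fun t => Real.rpow_pos_of_pos (hu0 t) _
  -- the sizes
  have hsize0 : ∀ t (σ : F →+* L), ‖ψ (σ (w (φ t) : F))‖ ≤ C * u (φ t) := by
    intro t σ
    calc ‖ψ (σ (w (φ t) : F))‖ = ‖(ψ (σ (w (φ t) : F)) - (N σ : ℂ) * (u (φ t) : ℂ)) +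
          (N σ : ℂ) * (u (φ t) : ℂ)‖ := by ring_nf
      _ ≤ ‖ψ (σ (w (φ t) : F)) - (N σ : ℂ) * (u (φ t) : ℂ)‖ + ‖(N σ : ℂ) * (u (φ t) : ℂ)‖ :=
          norm_add_le _ _
      _ ≤ 1 + Q * u (φ t) := by
          refine add_le_add ((hw _ _).trans (hsm t)) ?_
          rw [norm_mul, Complex.norm_real, Real.norm_of_nonneg (hu0 t).le]
          have : ‖(N σ : ℂ)‖ = |(N σ : ℝ)| := by
            rw [← Complex.ofReal_intCast, Complex.norm_real, Real.norm_eq_abs]
          rw [this]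
          exact mul_le_mul_of_nonneg_right (hQ σ) (hu0 t).le
      _ ≤ C * u (φ t) := by
          have := hu1 t
          nlinarith
  have hne : ∀ t, z t ≠ 0 := by
    intro t h0
    have h1 : w (φ t) = 0 := by
      rw [hzw t, h0]
      simp
    have h2 := hw (φ t) (s k0)
    rw [h1] at h2
    have h0' : ((0 : 𝓞 F) : F) = 0 := rfl
    rw [h0', map_zero, map_zero, zero_sub, norm_neg, norm_mul] at h2
    rw [Complex.norm_real, Real.norm_of_nonneg (hu0 t).le] at h2
    have h3 : (1 : ℝ) ≤ ‖(N (s k0) : ℂ)‖ := by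
      rw [← Complex.ofReal_intCast, Complex.norm_real, Real.norm_eq_abs, ← Int.cast_abs]
      exact_mod_cast Int.one_le_abs (hN (s k0))
    have h4 := hu2 t
    have h5 := hsm t
    nlinarith
  have key := Pool.Agent.Y674.HL.sub_gen ψ cj hcj iK hiKψ (m := m) (by omega)
    (Fm N s (fun j => (b j : 𝓞 F)) k0) (Fm_det N hN s _ k0 hs) z hne
    (fun t => Real.log (u (φ t))) (Real.tendsto_log_atTop.comp (hu.comp hφ.tendsto_atTop))
    (fun t k => if k = k0 then C * u (φ t) else C * u (φ t) ^ (-(3 / 4) : ℝ)) 2 (1 / 4)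
    (by norm_num) (by
      intro t k
      have h1 := hu0 t
      have h2 := hsp t
      split_ifs <;> positivity) (by
      intro t k
      obtain ⟨-, -, h2, h3⟩ := hφP t
      have h4 := hul t
      have h5 : 0 ≤ Real.log C := Real.log_nonneg hC1
      split_ifs
      · rw [Real.log_mul hC0.ne' (hu0 t).ne', abs_of_nonneg (by linarith)]
        linarith
      · rw [Real.log_mul hC0.ne' (hsp t).ne', Real.log_rpow (hu0 t)]
        rw [abs_le]
        constructor <;> linarith) (by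
      intro t
      obtain ⟨-, -, h2, h3⟩ := hφP t
      have h4 := hul t
      have h5 : ∀ k, Real.log (if k = k0 then C * u (φ t) else C * u (φ t) ^ (-(3 / 4) : ℝ)) =
          Real.log C - 3 / 4 * Real.log (u (φ t)) +
            (if k = k0 then 7 / 4 * Real.log (u (φ t)) else 0) := by
        intro k
        split_ifs
        · rw [Real.log_mul hC0.ne' (hu0 t).ne']
          ring
        · rw [Real.log_mul hC0.ne' (hsp t).ne', Real.log_rpow (hu0 t)]
          ring
      simp only [h5]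
      rw [Finset.sum_add_distrib, Finset.sum_const, Finset.card_univ, Fintype.card_fin,
        Finset.sum_ite_eq' Finset.univ k0, if_pos (Finset.mem_univ _), nsmul_eq_mul]
      have h6 : (3 : ℝ) ≤ m := by exact_mod_cast hm3
      nlinarith) (by
      intro t k
      rw [Fm_sum N s _ k0 k (z t) (w (φ t)) (hzw t)]
      split_ifs with h
      · exact hsize0 t _
      · have e1 : ψ ((N (s k0) : L) * s k (w (φ t) : F) - (N (s k) : L) * s k0 (w (φ t) : F)) =
            (N (s k0) : ℂ) * (ψ (s k (w (φ t) : F)) - (N (s k) : ℂ) * (u (φ t) : ℂ)) -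
            (N (s k) : ℂ) * (ψ (s k0 (w (φ t) : F)) - (N (s k0) : ℂ) * (u (φ t) : ℂ)) := by
          rw [map_sub, map_mul, map_mul, map_intCast, map_intCast]
          ring
        rw [e1]
        have e2 : ∀ σ, ‖(N σ : ℂ)‖ ≤ Q := by
          intro σ
          rw [← Complex.ofReal_intCast, Complex.norm_real, Real.norm_eq_abs]
          exact hQ σ
        calc _ ≤ ‖(N (s k0) : ℂ) * (ψ (s k (w (φ t) : F)) - (N (s k) : ℂ) * (u (φ t) : ℂ))‖ +
            ‖(N (s k) : ℂ) * (ψ (s k0 (w (φ t) : F)) - (N (s k0) : ℂ) * (u (φ t) : ℂ))‖ :=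
              norm_sub_le _ _
          _ ≤ Q * u (φ t) ^ (-(3 / 4) : ℝ) + Q * u (φ t) ^ (-(3 / 4) : ℝ) := by
              rw [norm_mul, norm_mul]
              exact add_le_add (mul_le_mul (e2 _) (hw _ _) (norm_nonneg _) (by linarith))
                (mul_le_mul (e2 _) (hw _ _) (norm_nonneg _) (by linarith))
          _ ≤ C * u (φ t) ^ (-(3 / 4) : ℝ) := by
              have := hsp t
              nlinarith)
  obtain ⟨y, hy, hyf⟩ := key
  -- a smaller submodule
  set f : Λ →ₗ[ℤ] ℤ := b.constr ℤ y with hf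
  have hf0 : f ≠ 0 := by
    intro h
    apply hy
    funext j
    have h1 := LinearMap.congr_fun h (b j)
    rw [hf, Module.Basis.constr_basis] at h1
    simpa using h1
  have hdrop := rank_drop f hf0
  set Λ' : Submodule ℤ (𝓞 F) := (LinearMap.ker f).map Λ.subtype with hΛ'
  have hΛ'r : Module.finrank ℤ Λ' = Module.finrank ℤ (LinearMap.ker f) :=
    (Submodule.equivMapOfInjective Λ.subtype Λ.injective_subtype (LinearMap.ker f)).finrank_eq.symm
  have hfin := hmin Λ' (by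
    refine hφ.tendsto_atTop.frequently (hyf.mono fun t ht => ?_)
    refine ⟨⟨w (φ t), hmem t⟩, ?_, rfl⟩
    show f _ = 0
    rw [hf, Module.Basis.constr_apply_fintype]
    rw [← ht]
    refine Finset.sum_congr rfl fun j _ => ?_
    rw [Module.Basis.equivFun_apply, smul_eq_mul, mul_comm])
  rw [hΛ'r] at hfin
  omega

theorem vanish (ψ : L →+* ℂ) (N : (F →+* L) → ℤ) (w : ℕ → 𝓞 F) (u : ℕ → ℝ)
    (hu : Tendsto u atTop atTop)
    (hw : ∀ (t : ℕ) (σ : F →+* L), ‖ψ (σ (w t : F)) - (N σ : ℂ) * (u t : ℂ)‖ ≤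
      u t ^ (-(3 / 4) : ℝ)) {m : ℕ} (b : Fin m → 𝓞 F)
    (hfr : ∃ᶠ t in atTop, ∃ z : Fin m → ℤ, w t = ∑ j, z j • b j)
    (c : (F →+* L) → L) (hc : ∀ j, ∑ σ, c σ * σ (b j : F) = 0) :
    ∑ σ, c σ * (N σ : L) = 0 := by
  by_contra hne
  have hne' : ψ (∑ σ, c σ * (N σ : L)) ≠ 0 := fun h => hne ((map_eq_zero ψ).1 h)
  have hpos := norm_pos_iff.2 hne'
  set δ : ℝ := ‖ψ (∑ σ, c σ * (N σ : L))‖ with hδ
  set S : ℝ := ∑ σ, ‖ψ (c σ)‖ with hS
  have hS0 : 0 ≤ S := Finset.sum_nonneg fun _ _ => norm_nonneg _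
  have hev : ∀ᶠ t in atTop, S < u t * δ ∧ 1 ≤ u t :=
    ((hu.atTop_mul_const hpos).eventually_gt_atTop _).and (hu.eventually_ge_atTop 1)
  obtain ⟨t, ⟨z, hz⟩, ht1, ht2⟩ := (hfr.and_eventually hev).exists
  have hu0 : 0 < u t := by linarith
  have h1 : ∑ σ, c σ * σ (w t : F) = 0 := by
    have h2 : ∀ σ : F →+* L, σ (w t : F) = ∑ j, (z j : L) * σ (b j : F) := by
      intro σ
      rw [hz]
      push_cast
      rw [map_sum]
      refine Finset.sum_congr rfl fun j _ => ?_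
      rw [zsmul_eq_mul, map_mul, map_intCast]
    simp only [h2, Finset.mul_sum]
    rw [Finset.sum_comm]
    refine Finset.sum_eq_zero fun j _ => ?_
    have h3 : ∀ σ : F →+* L, c σ * ((z j : L) * σ (b j : F)) = (z j : L) * (c σ * σ (b j : F)) :=
      fun σ => by ring
    simp only [h3]
    rw [← Finset.mul_sum, hc j, mul_zero]
  have h4 : (u t : ℂ) * ψ (∑ σ, c σ * (N σ : L)) =
      -∑ σ, ψ (c σ) * (ψ (σ (w t : F)) - (N σ : ℂ) * (u t : ℂ)) := by
    have h5 := congrArg ψ h1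
    rw [map_sum, map_zero] at h5
    simp only [map_mul] at h5
    rw [map_sum]
    simp only [map_mul, map_intCast, mul_sub, Finset.sum_sub_distrib]
    rw [h5, zero_sub, neg_neg, Finset.mul_sum]
    exact Finset.sum_congr rfl fun σ _ => by ring
  have h6 : u t * δ ≤ S := by
    calc u t * δ = ‖(u t : ℂ) * ψ (∑ σ, c σ * (N σ : L))‖ := by
          rw [norm_mul, Complex.norm_real, Real.norm_of_nonneg hu0.le]
      _ ≤ ∑ σ, ‖ψ (c σ) * (ψ (σ (w t : F)) - (N σ : ℂ) * (u t : ℂ))‖ := by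
          rw [h4, norm_neg]
          exact norm_sum_le _ _
      _ ≤ S := by
          refine Finset.sum_le_sum fun σ _ => ?_
          rw [norm_mul]
          have h7 : ‖ψ (σ (w t : F)) - (N σ : ℂ) * (u t : ℂ)‖ ≤ 1 :=
            (hw t σ).trans (Real.rpow_le_one_of_one_le_of_nonpos ht2 (by norm_num))
          calc ‖ψ (c σ)‖ * ‖ψ (σ (w t : F)) - (N σ : ℂ) * (u t : ℂ)‖ ≤ ‖ψ (c σ)‖ * 1 := by gcongr
            _ = ‖ψ (c σ)‖ := mul_one _
  linarith

/-- the embeddings composed with an automorphism -/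
def cmp (g : L ≃ₐ[ℚ] L) : (F →+* L) ≃ (F →+* L) where
  toFun σ := (g : L →+* L).comp σ
  invFun σ := (g.symm : L →+* L).comp σ
  left_inv σ := by
    ext a
    exact g.symm_apply_apply (σ a)
  right_inv σ := by
    ext a
    exact g.apply_symm_apply (σ a)

theorem vanish_g (ψ : L →+* ℂ) (N : (F →+* L) → ℤ) (w : ℕ → 𝓞 F) (u : ℕ → ℝ)
    (hu : Tendsto u atTop atTop)
    (hw : ∀ (t : ℕ) (σ : F →+* L), ‖ψ (σ (w t : F)) - (N σ : ℂ) * (u t : ℂ)‖ ≤
      u t ^ (-(3 / 4) : ℝ)) {m : ℕ} (b : Fin m → 𝓞 F)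
    (hfr : ∃ᶠ t in atTop, ∃ z : Fin m → ℤ, w t = ∑ j, z j • b j) (g : L ≃ₐ[ℚ] L)
    (c : (F →+* L) → L) (hc : ∀ j, ∑ σ, c σ * σ (b j : F) = 0) :
    ∑ σ, c σ * (N ((g : L →+* L).comp σ) : L) = 0 := by
  set c' : (F →+* L) → L := fun τ => g (c ((cmp g).symm τ)) with hc'
  have hc'g : ∀ σ, c' (cmp g σ) = g (c σ) := fun σ => by
    rw [hc']
    simp only [Equiv.symm_apply_apply]
  have h1 := vanish ψ N w u hu hw b hfr c' (by
    intro j
    rw [← Equiv.sum_comp (cmp g)]
    have : ∀ σ : F →+* L, c' (cmp g σ) * (cmp g σ) (b j : F) = g (c σ * σ (b j : F)) := by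
      intro σ
      rw [hc'g, map_mul]
      rfl
    simp only [this]
    rw [← map_sum, hc j, map_zero])
  rw [← Equiv.sum_comp (cmp g)] at h1
  have h2 : ∀ σ : F →+* L, c' (cmp g σ) * (N (cmp g σ) : L) =
      g (c σ * (N ((g : L →+* L).comp σ) : L)) := by
    intro σ
    rw [hc'g, map_mul, map_intCast]
    rfl
  simp only [h2] at h1
  rw [← map_sum] at h1
  exact (map_eq_zero g).1 h1

theorem sch : SCH := by
  classical
  intro F L _ _ _ _ _ ψ hI hfac N hN w u hu hw
  obtain ⟨m, b, hm, hfr⟩ := low_rank ψ hI hfac N hN w u hu hw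
  set X : (L ≃ₐ[ℚ] L) → ((F →+* L) → ℚ) := fun g σ => (N ((g : L →+* L).comp σ) : ℚ) with hX
  set W : Submodule L ((F →+* L) → L) :=
    Submodule.span L (Set.range fun (j : Fin m) (σ : F →+* L) => σ (b j : F)) with hW
  have hmem : ∀ g, (fun σ => ((X g σ : ℚ) : L)) ∈ W := by
    intro g
    by_contra hg
    obtain ⟨f, hf, hle⟩ := Submodule.exists_le_ker_of_notMem hg
    apply hf
    have hfc : ∀ x : (F →+* L) → L, f x = ∑ σ, f (Pi.single σ 1) * x σ := by
      intro x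
      have hx : x = ∑ σ, x σ • (Pi.single σ (1 : L) : (F →+* L) → L) := by
        funext j
        simp [Finset.sum_apply, Pi.single_apply]
      conv_lhs => rw [hx]
      rw [map_sum]
      refine Finset.sum_congr rfl fun l _ => ?_
      rw [map_smul, smul_eq_mul, mul_comm]
    rw [hfc]
    have h1 := vanish_g ψ N w u hu hw b hfr g (fun σ => f (Pi.single σ 1)) (by
      intro j
      have h2 := hle (Submodule.subset_span ⟨j, rfl⟩)
      rw [LinearMap.mem_ker, hfc] at h2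
      exact h2)
    rw [← h1]
    refine Finset.sum_congr rfl fun σ _ => ?_
    simp only [hX, Rat.cast_intCast]
  obtain ⟨e, he, -, hli⟩ := Submodule.exists_fun_fin_finrank_span_eq ℚ (Set.range X)
  have hliL := indep_base (L := L) e hli
  have h1 : Module.finrank L (Submodule.span L (Set.range
      (fun (j : Fin (Module.finrank ℚ (Submodule.span ℚ (Set.range X)))) (σ : F →+* L) =>
        ((e j σ : ℚ) : L)))) = Module.finrank ℚ (Submodule.span ℚ (Set.range X)) := by
    rw [finrank_span_eq_card hliL, Fintype.card_fin]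
  have h2 : Submodule.span L (Set.range
      (fun (j : Fin (Module.finrank ℚ (Submodule.span ℚ (Set.range X)))) (σ : F →+* L) =>
        ((e j σ : ℚ) : L))) ≤ W := by
    rw [Submodule.span_le]
    rintro _ ⟨j, rfl⟩
    obtain ⟨g, hg⟩ := he j
    have := hmem g
    rw [hg] at this
    exact this
  have h3 := Submodule.finrank_mono h2
  have h4 : Module.finrank L W ≤ m := by
    have := finrank_range_le_card (R := L) (fun (j : Fin m) (σ : F →+* L) => σ (b j : F))
    rwa [Fintype.card_fin] at this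
  rw [h1] at h3
  exact h3.trans (h4.trans hm)

end B

end Pool.Agent.Y674.HY
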