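import Mathlib
import Pool.Agent.Y674.HY.Sch

/-!
Assembly.
-/

set_option autoImplicit false

open Finset Filter Topology Polynomial

namespace Pool.Agent.Y674.HY

open NumberField

/-- the largest absolute value of a coefficient -/
noncomputable def mx (f : ℤ[X]) : ℕ := f.support.sup (fun i => (f.coeff i).natAbs)

theorem mx_coeff (f : ℤ[X]) (i : ℕ) : |f.coeff i| ≤ (mx f : ℤ) := by
  by_cases hi : i ∈ f.support
  · have h1 : (f.coeff i).natAbs ≤ mx f :=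
      Finset.le_sup (f := fun i => (f.coeff i).natAbs) hi
    have h2 : ((f.coeff i).natAbs : ℤ) ≤ mx f := by exact_mod_cast h1
    rwa [Int.natCast_natAbs] at h2
  · rw [notMem_support_iff.mp hi, abs_zero]
    positivity

theorem mx_pos (f : ℤ[X]) (hf : f ≠ 0) : 1 ≤ mx f := by
  have h1 := mx_coeff f f.natDegree
  have h2 : 1 ≤ |f.leadingCoeff| := Int.one_le_abs (leadingCoeff_ne_zero.2 hf)
  have h3 : (1 : ℤ) ≤ mx f := h2.trans h1
  exact_mod_cast h3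

/-- the logarithmic form of a bound -/
theorem log_form (f : ℤ[X]) (hf : f ≠ 0) (x : ℤ) (C k : ℕ) 
    (h : |(x : ℝ)| ≤ C * (mx f : ℝ) ^ k) :
    Real.log (max |(x : ℝ)| 1) ≤ k * Real.log (max (mx f : ℝ) 1) + Real.log (max (C : ℝ) 1) := by
  have h1 : (1 : ℝ) ≤ mx f := by exact_mod_cast mx_pos f hf
  have h2 : (0 : ℝ) < mx f := by linarith
  rw [max_eq_left h1, ← Real.log_pow, add_comm, ← Real.log_mul (by positivity) (by positivity)]
  apply Real.log_le_log (by positivity)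
  have h3 : (1 : ℝ) ≤ (mx f : ℝ) ^ k := one_le_pow₀ h1
  apply max_le
  · refine h.trans ?_
    gcongr
    exact le_max_left _ _
  · calc (1 : ℝ) = 1 * 1 := by norm_num
      _ ≤ _ := mul_le_mul (le_max_right _ _) h3 (by norm_num) (by positivity)

theorem U_pos (f : ℤ[X]) (x : ℤ) (h : 0 < f.leadingCoeff * x) : 0 < U f x := by
  unfold U
  apply Real.sqrt_pos.2
  exact_mod_cast h

theorem U_lower (f : ℤ[X]) (x : ℤ) (h : 0 < f.leadingCoeff * x) : |(x : ℝ)| ≤ U f x ^ 2 := by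
  unfold U
  have h0 : (0 : ℝ) < (f.leadingCoeff : ℝ) * x := by exact_mod_cast h
  rw [Real.sq_sqrt h0.le]
  have h1 : f.leadingCoeff ≠ 0 := by
    rintro h2
    rw [h2] at h
    simp at h
  have h2 : (1 : ℝ) ≤ |(f.leadingCoeff : ℝ)| := by
    rw [← Int.cast_abs]
    exact_mod_cast Int.one_le_abs h1
  calc |(x : ℝ)| = 1 * |(x : ℝ)| := (one_mul _).symm
    _ ≤ |(f.leadingCoeff : ℝ)| * |(x : ℝ)| := by gcongr
    _ = |(f.leadingCoeff : ℝ) * x| := (abs_mul _ _).symm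
    _ = _ := abs_of_pos h0

/-- part (A): the degree is not divisible by 4 -/
theorem partA (hkey : KEY) (hapx : APX) (htrc : TRC) (d : ℕ) (hd : Odd d) (hd3 : 3 ≤ d) :
    ∃ k : ℕ, ∀ n : ℕ, ¬ 4 ∣ n → ∃ C : ℕ, ∀ (K : Type) [Field K] [NumberField K],
      Module.finrank ℚ K = n → ∀ (f : ℤ[X]) (H : ℕ) (x y : ℤ), Pt d f H x y → ∀ ρ : K[X],
      Half K f x ρ → |(x : ℝ)| ≤ C * (H : ℝ) ^ k := by
  obtain ⟨k, hk⟩ := hapx d hd hd3
  refine ⟨max k 1, fun n hn => ?_⟩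
  have hn0 : 1 ≤ n := by
    rcases Nat.eq_zero_or_pos n with h | h
    · rw [h] at hn
      simp at hn
    · exact h
  obtain ⟨C, hC⟩ := hk (2 * n * d) (Nat.mul_pos (Nat.mul_pos two_pos hn0) (by omega))
  refine ⟨max C 4, ?_⟩
  intro K _ _ hK f H x y hP ρ hρ
  have hH : 1 ≤ H := hP.2.2.1
  have hHR : (1 : ℝ) ≤ H := by exact_mod_cast hH
  have hmono : (H : ℝ) ^ k ≤ (H : ℝ) ^ (max k 1) := pow_le_pow_right₀ hHR (le_max_left _ _)
  have hmono1 : (H : ℝ) ≤ (H : ℝ) ^ (max k 1) := by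
    calc (H : ℝ) = (H : ℝ) ^ 1 := (pow_one _).symm
      _ ≤ _ := pow_le_pow_right₀ hHR (le_max_right _ _)
  by_cases hx : 4 * (H : ℤ) ≤ |x|
  · obtain ⟨hpos, w, N, hN, hw⟩ := hkey d hd f H x y hP hx K ρ hρ
    have hU := U_pos f x hpos
    obtain ⟨Z, N0, hN0, hN0b, hZ⟩ := htrc K (by rw [hK]; exact hn) d N hN w (U f x) _ hw
    rw [hK] at hN0b hZ
    have h1 := hC f H x y hP hpos Z N0 hN0 (by
      refine hN0b.trans ?_
      push_cast
      have : (0 : ℤ) ≤ n * d := by positivity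
      nlinarith) (by
      refine hZ.trans (le_of_eq ?_)
      push_cast
      ring)
    calc |(x : ℝ)| ≤ C * (H : ℝ) ^ k := h1
      _ ≤ (max C 4 : ℕ) * (H : ℝ) ^ (max k 1) := by
        have : (C : ℝ) ≤ (max C 4 : ℕ) := by exact_mod_cast le_max_left _ _
        gcongr
  · push Not at hx
    have h1 : |(x : ℝ)| ≤ 4 * H := by
      rw [← Int.cast_abs]
      exact_mod_cast hx.le
    calc |(x : ℝ)| ≤ 4 * H := h1
      _ ≤ (max C 4 : ℕ) * (H : ℝ) ^ (max k 1) := by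
        have : (4 : ℝ) ≤ (max C 4 : ℕ) := by exact_mod_cast le_max_right _ _
        gcongr

/-- the permutation of the embeddings -/
def perm {F L : Type} [Field F] [NumberField F] [Field L] [NumberField L] :
    (L ≃ₐ[ℚ] L) →* Equiv.Perm (F →+* L) where
  toFun := cmp
  map_one' := by
    ext σ a
    rfl
  map_mul' g h := by
    ext σ a
    rfl

/-- infinitely many points with the same pattern -/
theorem pattern_two (hcry : CRY) (hconj : CONJ) (K : Type) [Field K] [NumberField K] (d : ℕ)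
    (N : (K →+* ℂ) → ℤ) (hN : Pat d N) (w : ℕ → 𝓞 K) (u : ℕ → ℝ) (hu : Tendsto u atTop atTop)
    (hw : ∀ (t : ℕ) (σ : K →+* ℂ), ‖σ (w t : K) - (N σ : ℂ) * (u t : ℂ)‖ ≤
      u t ^ (-(3 / 4) : ℝ)) :
    ∀ᶠ t in atTop, (Set.range fun σ : K →+* ℂ => σ (w t : K)).ncard ≤ 2 := by
  obtain ⟨L, hfin, hgal, hI, hL⟩ := Pool.Agent.Y674.HL.exists_gal K
  have : NumberField L := { to_charZero := inferInstance, to_finiteDimensional := hfin }
  set ψ : L →+* ℂ := algebraMap L ℂ with hψ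
  have hfac : ∀ (σ : K →+* ℂ) (a : K), ∃ b : L, ψ b = σ a := fun σ a => ⟨⟨σ a, hL σ a⟩, rfl⟩
  set N' : (K →+* L) → ℤ := fun σ => N (ψ.comp σ) with hN'
  have hN'P : Pat d N' := ⟨fun σ => hN.1 _, fun σ => hN.2.1 _, fun σ τ => hN.2.2 _ _⟩
  have hw' : ∀ (t : ℕ) (σ : K →+* L), ‖ψ (σ (w t : K)) - (N' σ : ℂ) * (u t : ℂ)‖ ≤
      u t ^ (-(3 / 4) : ℝ) := fun t σ => hw t (ψ.comp σ)
  have h1 := sch K L ψ ⟨⟨Complex.I, hI⟩, rfl⟩ hfac N' (fun σ h => by
    have := hN'P.2.1 σ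
    rw [h] at this
    exact absurd this (by decide)) w u hu hw'
  obtain ⟨S, hS, hSN⟩ := hcry (L ≃ₐ[ℚ] L) (K →+* L) perm d N' hN'P h1
  have hev : ∀ᶠ t in atTop, u t ^ (-(3 / 4) : ℝ) < 1 / 2 := by
    have h2 : Tendsto (fun x : ℝ => x ^ (-(3 / 4) : ℝ)) atTop (𝓝 0) :=
      tendsto_rpow_neg_atTop (by norm_num)
    exact (h2.comp hu).eventually_lt_const (by norm_num)
  filter_upwards [hev] with t ht
  exact hconj K L ψ hfac N' (w t) (u t) _ ht (hw' t) S hS (fun g hg σ => hSN g hg σ)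

/-- part (B): a fixed number field -/
theorem partB (hkey : KEY) (hapx : APX) (hquad : QUAD) (hcry : CRY) (hconj : CONJ) (d : ℕ)
    (hd : Odd d) (hd3 : 3 ≤ d) :
    ∃ k : ℕ, ∀ (K : Type) [Field K] [NumberField K], ∃ C : ℕ,
      ∀ (f : ℤ[X]) (H : ℕ) (x y : ℤ), Pt d f H x y → ∀ ρ : K[X],
      Half K f x ρ → |(x : ℝ)| ≤ C * (H : ℝ) ^ k := by
  classical
  obtain ⟨k, hk⟩ := hapx d hd hd3
  refine ⟨max k 16, fun K _ _ => ?_⟩
  obtain ⟨C, hC⟩ := hk (4 * d) (by omega)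
  by_contra hcon
  push Not at hcon
  choose f H x y hP ρ hρ hlt using hcon
  have hH : ∀ t, (1 : ℝ) ≤ H t := fun t => by exact_mod_cast (hP t).2.2.1
  have hpow : ∀ t, (1 : ℝ) ≤ (H t : ℝ) ^ max k 16 := fun t => one_le_pow₀ (hH t)
  have hpow16 : ∀ t, (H t : ℝ) ^ 16 ≤ (H t : ℝ) ^ max k 16 := fun t =>
    pow_le_pow_right₀ (hH t) (le_max_right _ _)
  have hpowk : ∀ t, (H t : ℝ) ^ k ≤ (H t : ℝ) ^ max k 16 := fun t =>
    pow_le_pow_right₀ (hH t) (le_max_left _ _)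
  -- from the index 4 on the point is large
  have hx4 : ∀ t, 4 * (H (t + 4) : ℤ) ≤ |x (t + 4)| := by
    intro t
    have h1 := hlt (t + 4)
    have h2 : (H (t + 4) : ℝ) ≤ (H (t + 4) : ℝ) ^ max k 16 := by
      calc (H (t + 4) : ℝ) = (H (t + 4) : ℝ) ^ 1 := (pow_one _).symm
        _ ≤ _ := pow_le_pow_right₀ (hH _) (le_trans (by norm_num) (le_max_right _ _))
    have h3 : (4 : ℝ) * H (t + 4) ≤ |(x (t + 4) : ℝ)| := by
      refine le_trans ?_ h1.le
      have : (4 : ℝ) ≤ ((t + 4 : ℕ) : ℝ) := by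
        push_cast
        have : (0 : ℝ) ≤ t := Nat.cast_nonneg t
        linarith
      gcongr
    rw [← Int.cast_abs] at h3
    exact_mod_cast h3
  choose hpos w N hN hw using fun t => hkey d hd (f (t + 4)) (H (t + 4)) (x (t + 4)) (y (t + 4))
    (hP _) (hx4 t) K (ρ (t + 4)) (hρ _)
  set V : ℕ → ℝ := fun t => U (f (t + 4)) (x (t + 4)) with hV
  have hV0 : ∀ t, 0 < V t := fun t => U_pos _ _ (hpos t)
  have hVx : ∀ t, |(x (t + 4) : ℝ)| ≤ V t ^ 2 := fun t => U_lower _ _ (hpos t)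
  have hVt : ∀ t : ℕ, (t : ℝ) ≤ V t ^ 2 := by
    intro t
    refine le_trans ?_ (hVx t)
    refine le_trans ?_ (hlt (t + 4)).le
    have h1 := hpow (t + 4)
    have h2 : (0 : ℝ) ≤ t := Nat.cast_nonneg t
    push_cast
    nlinarith
  have hVtend : Tendsto V atTop atTop := by
    rw [Filter.tendsto_atTop_atTop]
    intro B
    refine ⟨⌈B ^ 2⌉₊, fun t ht => ?_⟩
    have h1 : B ^ 2 ≤ t := (Nat.le_ceil _).trans (by exact_mod_cast ht)
    have h2 : B ^ 2 ≤ V t ^ 2 := h1.trans (hVt t)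
    have h3 := sq_le_sq.1 h2
    rw [abs_of_pos (hV0 t)] at h3
    exact le_of_abs_le h3
  -- the rate
  have hrate : ∀ᶠ t in atTop, (d : ℝ) * (2 * H (t + 4) / V t) ≤ V t ^ (-(3 / 4) : ℝ) := by
    filter_upwards [Filter.eventually_ge_atTop ((2 * d) ^ 8)] with t ht
    have h1 : ((2 * d : ℝ)) ^ 8 ≤ ((t + 4 : ℕ) : ℝ) := by
      have : (((2 * d) ^ 8 : ℕ) : ℝ) ≤ ((t + 4 : ℕ) : ℝ) := by exact_mod_cast (by omega)
      push_cast at this ⊢
      exact this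
    have hH1 := hH (t + 4)
    have h2 : (2 * d * H (t + 4) : ℝ) ^ 8 ≤ V t ^ 2 := by
      calc (2 * d * H (t + 4) : ℝ) ^ 8 = (2 * d : ℝ) ^ 8 * (H (t + 4) : ℝ) ^ 8 := by ring
        _ ≤ ((t + 4 : ℕ) : ℝ) * (H (t + 4) : ℝ) ^ max k 16 := by
            refine mul_le_mul h1 ?_ (by positivity) (by positivity)
            exact pow_le_pow_right₀ hH1 (le_trans (by norm_num) (le_max_right _ _))
        _ ≤ |(x (t + 4) : ℝ)| := (hlt (t + 4)).le
        _ ≤ V t ^ 2 := hVx t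
    have h3 : (2 * d * H (t + 4) : ℝ) ≤ V t ^ (1 / 4 : ℝ) := by
      have h4 : (V t ^ (1 / 4 : ℝ)) ^ 8 = V t ^ 2 := by
        rw [← Real.rpow_natCast (V t ^ (1 / 4 : ℝ)) 8, ← Real.rpow_mul (hV0 t).le,
          ← Real.rpow_natCast (V t) 2]
        norm_num
      rw [← h4] at h2
      exact le_of_pow_le_pow_left₀ (by norm_num) (Real.rpow_nonneg (hV0 t).le _) h2
    calc (d : ℝ) * (2 * H (t + 4) / V t) = (2 * d * H (t + 4)) / V t := by ring
      _ ≤ V t ^ (1 / 4 : ℝ) / V t := div_le_div_of_nonneg_right h3 (hV0 t).le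
      _ = V t ^ (-(3 / 4) : ℝ) := by
          conv_lhs => rw [← Real.rpow_one (V t)]
          rw [← Real.rpow_mul (hV0 t).le, ← Real.rpow_sub (hV0 t)]
          norm_num
  -- a constant pattern
  have hfin : {g : (K →+* ℂ) → ℤ | ∀ i, g i ∈ Set.Icc (-(d : ℤ)) d}.Finite :=
    Set.Finite.pi' fun _ => Set.finite_Icc _ _
  obtain ⟨N0, hN0⟩ : ∃ N0 : (K →+* ℂ) → ℤ, ∃ᶠ t in atTop, N t = N0 := by
    by_contra hne
    push Not at hne
    have h1 : ∀ᶠ t in atTop, ∀ g ∈ {g : (K →+* ℂ) → ℤ | ∀ i, g i ∈ Set.Icc (-(d : ℤ)) d},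
        N t ≠ g := by
      rw [Filter.eventually_all_finite hfin]
      intro g _
      exact hne g
    obtain ⟨t, ht⟩ := h1.exists
    exact ht (N t) (fun i => abs_le.1 ((hN t).1 i)) rfl
  obtain ⟨φ, hφ, hφP⟩ := Filter.extraction_of_frequently_atTop (hN0.and_eventually hrate)
  have hP0 : Pat d N0 := by
    rw [← (hφP 0).1]
    exact hN _
  have htwo := pattern_two hcry hconj K d N0 hP0 (fun t => w (φ t)) (fun t => V (φ t))
    (hVtend.comp hφ.tendsto_atTop) (fun t σ => by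
      have h1 := hw (φ t) σ
      rw [(hφP t).1] at h1
      exact h1.trans (hφP t).2)
  obtain ⟨t, ht2, htC⟩ := (htwo.and (Filter.eventually_ge_atTop C)).exists
  have hφt : C ≤ φ t := htC.trans (hφ.id_le t)
  obtain ⟨Z, M0, hM0, hM0b, hZ⟩ := hquad K d (N (φ t)) (hN (φ t)) (w (φ t)) (V (φ t)) _
    (hw (φ t)) ht2
  have hend := hC (f (φ t + 4)) (H (φ t + 4)) (x (φ t + 4)) (y (φ t + 4)) (hP _) (hpos _)
    Z M0 hM0 (by
      refine hM0b.trans ?_
      push_cast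
      have : (0 : ℤ) ≤ d := by positivity
      linarith) (by
      refine hZ.trans (le_of_eq ?_)
      push_cast
      ring)
  have hl := hlt (φ t + 4)
  have h5 : (C : ℝ) * (H (φ t + 4) : ℝ) ^ k ≤ ((φ t + 4 : ℕ) : ℝ) *
      (H (φ t + 4) : ℝ) ^ max k 16 := by
    have h6 : (C : ℝ) ≤ ((φ t + 4 : ℕ) : ℝ) := by exact_mod_cast (by omega)
    have h7 := hpowk (φ t + 4)
    have h8 : (0 : ℝ) ≤ (H (φ t + 4) : ℝ) ^ k := by positivity
    exact mul_le_mul h6 h7 h8 (by positivity)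
  linarith

end Pool.Agent.Y674.HY
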