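import Mathlib
import Pool.Agent.Y674.HY.Stm

/-!
Project HY, part 2: Runge's method on the two-covering, uniformly.
Exact statements of the pieces.
-/

set_option autoImplicit false

namespace Pool.Agent.Y674.HY

open Polynomial NumberField

/-- the subsets of `Fin e` with an even number of elements -/
abbrev Ev (e : ℕ) : Type := {I : Finset (Fin e) // Even I.card}

/-- the sign of a subset under a pattern -/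
def sgn {e : ℕ} (ε : Fin e → ℤˣ) (I : Finset (Fin e)) : ℤ := ((∏ i ∈ I, ε i : ℤˣ) : ℤ)

/-- the truncation of the series `∑ b l z ^ l X ^ l` -/
noncomputable def tr {R : Type} [CommRing R] (b : ℕ → ℤ) (κ : ℕ) (z : R) : R[X] :=
  ∑ l ∈ Finset.range (κ + 1), C ((b l : R) * z ^ l) * X ^ l

/-- the product of the truncated series over `I` -/
noncomputable def QI {R : Type} [CommRing R] {e : ℕ} (b : ℕ → ℤ) (κ : ℕ) (z : Fin e → R)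
    (I : Finset (Fin e)) : R[X] := ∏ i ∈ I, tr b κ (z i)

/-- the value `∑ I, (∑ j, P I j V ^ (k - j)) ∏ i ∈ I, s i` -/
noncomputable def val {R : Type} [CommRing R] {e : ℕ} (k : ℕ) (V : ℤ) (s : Fin e → R)
    (P : Ev e → R[X]) : R :=
  ∑ I : Ev e, (∑ j ∈ Finset.range (k + 1), (P I).coeff j * (V : R) ^ (k - j)) * ∏ i ∈ I.1, s i

/-- expansion of the square root with integral coefficients -/
def EXPI : Prop := ∃ b : ℕ → ℤ, b 0 = 1 ∧ ∀ κ : ℕ, ∃ C₀ : ℝ, 0 ≤ C₀ ∧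
  ∀ (v : ℝ) (z : ℂ), 0 < v → 8 * ‖z‖ ≤ v ^ 2 → ∃ θ : ℂ, θ ^ 2 = (v : ℂ) ^ 2 - 4 * z ∧
    ‖θ - v * ∑ l ∈ Finset.range (κ + 1), (b l : ℂ) * (z / (v : ℂ) ^ 2) ^ l‖ ≤
      C₀ * v * (‖z‖ / v ^ 2) ^ (κ + 1)

/-- small integral solutions of linear equations, by minors -/
def CRAM : Prop := ∀ (L : Type) [Field L] [NumberField L] (p q : ℕ), p < q →
  ∀ (A : Matrix (Fin p) (Fin q) (𝓞 L)) (W : ℝ), 1 ≤ W →
  (∀ (σ : L →+* ℂ) (i : Fin p) (j : Fin q), ‖σ (A i j : L)‖ ≤ W) →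
  ∃ c : Fin q → 𝓞 L, c ≠ 0 ∧ A.mulVec c = 0 ∧
    ∀ (σ : L →+* ℂ) (j : Fin q), ‖σ (c j : L)‖ ≤ (q * W) ^ q

/-- a form which is small for all patterns but one -/
def SIEG : Prop := ∀ (e : ℕ), 2 ≤ e → ∀ b : ℕ → ℤ, ∃ (k κ C₀ k₀ : ℕ), k + e ≤ κ ∧ 1 ≤ C₀ ∧
  ∀ (L : Type) [Field L] [NumberField L] (z : Fin e → 𝓞 L) (B : ℝ), 1 ≤ B →
  (∀ (σ : L →+* ℂ) (i : Fin e), ‖σ (z i : L)‖ ≤ B) → ∀ η : Fin e → ℤˣ,
  ∃ P : Ev e → (𝓞 L)[X], (∃ I, P I ≠ 0) ∧ (∀ I, (P I).natDegree ≤ k) ∧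
    (∀ (I : Ev e) (j : ℕ) (σ : L →+* ℂ), ‖σ ((P I).coeff j : L)‖ ≤ C₀ * B ^ k₀) ∧
    ∀ ε : Fin e → ℤˣ, ε ≠ η → ε ≠ -η →
      X ^ (k + e + 1) ∣ ∑ I : Ev e, C ((sgn ε I.1 : ℤ) : 𝓞 L) * P I * X ^ (e - I.1.card / 2) *
        QI b κ z I.1

/-- such a form vanishes at the point, if the sign patterns of the automorphisms are good -/
def SMALL : Prop := ∀ (e : ℕ), 2 ≤ e → ∀ (b : ℕ → ℤ) (k κ : ℕ), k + e ≤ κ → ∀ C₂ : ℝ, 0 ≤ C₂ →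
  ∃ C₁ k₁ : ℕ, ∀ (L : Type) [Field L] [NumberField L] [IsGalois ℚ L] (ψ : L →+* ℂ)
    (z s : Fin e → 𝓞 L) (V : ℤ) (B W : ℝ), 0 < V → 1 ≤ B → 1 ≤ W →
    (∀ (σ : L →+* ℂ) (i : Fin e), ‖σ (z i : L)‖ ≤ B) →
    (∀ i, ‖ψ (s i : L) - Real.sqrt V * ∑ l ∈ Finset.range (κ + 1),
      (b l : ℂ) * (ψ (z i : L) / (V : ℂ)) ^ l‖ ≤ C₂ * Real.sqrt V * (B / V) ^ (κ + 1)) →
    ∀ (π : (L ≃ₐ[ℚ] L) → Fin e → Fin e) (ξ : (L ≃ₐ[ℚ] L) → Fin e → ℤˣ),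
    (∀ g i, g (z i : L) = (z (π g i) : L)) →
    (∀ g i, g (s i : L) = ((ξ g i : ℤ) : L) * (s (π g i) : L)) →
    ∀ P : Ev e → (𝓞 L)[X], (∀ I, (P I).natDegree ≤ k) →
    (∀ (I : Ev e) (j : ℕ) (σ : L →+* ℂ), ‖σ ((P I).coeff j : L)‖ ≤ W) →
    (∀ g, X ^ (k + e + 1) ∣ ∑ I : Ev e, C ((sgn (ξ g) I.1 : ℤ) : 𝓞 L) * P I *
      X ^ (e - I.1.card / 2) * QI b κ z I.1) →
    C₁ * (B * W) ^ k₁ ≤ V → val k V s P = 0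

/-- the products of square roots of different linear polynomials are linearly independent -/
def INDP : Prop := ∀ (F : Type) [Field F] [CharZero F] (e : ℕ) (z : Fin e → F),
  Function.Injective z → ∀ (E : Type) [Field E] [Algebra (RatFunc F) E] (T : Fin e → E),
  (∀ i, T i ^ 2 = algebraMap (RatFunc F) E (RatFunc.X - RatFunc.C (z i))) →
  LinearIndependent (RatFunc F) (fun I : Finset (Fin e) => ∏ i ∈ I, T i)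

/-- a nonzero form does not vanish at a large point -/
def NONV : Prop := ∀ (e k : ℕ), ∃ C₃ k₃ : ℕ, ∀ (L : Type) [Field L] [NumberField L]
    (z s : Fin e → 𝓞 L) (V : ℤ) (B W : ℝ), 1 ≤ B → 1 ≤ W → Function.Injective z →
    (∀ (σ : L →+* ℂ) (i : Fin e), ‖σ (z i : L)‖ ≤ B) →
    (∀ i, s i ^ 2 = (V : 𝓞 L) - 4 * z i) →
    ∀ P : Ev e → (𝓞 L)[X], (∃ I, P I ≠ 0) → (∀ I, (P I).natDegree ≤ k) →
    (∀ (I : Ev e) (j : ℕ) (σ : L →+* ℂ), ‖σ ((P I).coeff j : L)‖ ≤ W) →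
    val k V s P = 0 → |(V : ℝ)| ≤ C₃ * (B * W) ^ k₃

/-- a subgroup of small index fixing a pattern up to sign: some pattern is missed -/
def NTR : Prop := ∀ (G : Type) [Group G] [Finite G] (e : ℕ), 1 ≤ e →
  ∀ (π : G → Fin e → Fin e) (ξ : G → Fin e → ℤˣ),
  (∀ g h i, π (g * h) i = π g (π h i)) → (∀ g h i, ξ (g * h) i = ξ h i * ξ g (π h i)) →
  (∀ i, π 1 i = i) →
  ∀ (S : Subgroup G) (ε₀ : Fin e → ℤˣ), S.index < 2 ^ (e - 1) →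
  (∀ g ∈ S, (∀ i, ε₀ i * ξ g i = ε₀ (π g i)) ∨ (∀ i, ε₀ i * ξ g i = -ε₀ (π g i))) →
  ∃ η : Fin e → ℤˣ, ∀ g, ξ g ≠ η ∧ ξ g ≠ -η

/-- the Galois theory of the two-covering -/
def GALA : Prop := ∀ (e : ℕ), 1 ≤ e → ∀ (h : ℤ[X]), h.Monic → h.natDegree = e →
  (h.map (Int.castRingHom ℚ)).Separable → ∀ (B : ℝ), (∀ r ∈ Rt h, ‖r‖ ≤ B) → ∀ U : ℤ, B < U →
  ∀ (K : Type) [Field K] [NumberField K] (D : K) (ρ : K[X]), D ≠ 0 →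
  h.map (Int.castRingHom K) ∣ C D * ρ ^ 2 - (C (U : K) - X) →
  ∀ θ : ℂ → ℂ, (∀ r ∈ Rt h, θ r ^ 2 = 4 * U - 4 * r) →
  ∃ (L : Type) (_ : Field L) (_ : NumberField L) (_ : IsGalois ℚ L) (ψ : L →+* ℂ)
    (z s : Fin e → 𝓞 L) (π : (L ≃ₐ[ℚ] L) → Fin e → Fin e) (ξ : (L ≃ₐ[ℚ] L) → Fin e → ℤˣ)
    (S : Subgroup (L ≃ₐ[ℚ] L)) (ε₀ : Fin e → ℤˣ),
    Function.Injective z ∧ (∀ i, ψ (z i : L) ∈ Rt h) ∧
    (∀ (σ : L →+* ℂ) (i : Fin e), ‖σ (z i : L)‖ ≤ B) ∧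
    (∀ i, s i ^ 2 = ((4 * U : ℤ) : 𝓞 L) - 4 * z i) ∧
    (∀ i, ψ (s i : L) = θ (ψ (z i : L))) ∧
    (∀ g i, g (z i : L) = (z (π g i) : L)) ∧
    (∀ g i, g (s i : L) = ((ξ g i : ℤ) : L) * (s (π g i) : L)) ∧
    (∀ g h i, π (g * h) i = π g (π h i)) ∧ (∀ g h i, ξ (g * h) i = ξ h i * ξ g (π h i)) ∧
    (∀ i, π 1 i = i) ∧ S.index ≤ Module.finrank ℚ K ∧
    (∀ g ∈ S, (∀ i, ε₀ i * ξ g i = ε₀ (π g i)) ∨ (∀ i, ε₀ i * ξ g i = -ε₀ (π g i)))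

/-- the result for monic polynomials and positive `U` -/
def RUNM : Prop := ∀ e : ℕ, 2 ≤ e → ∃ C₀ k₀ : ℕ, ∀ (h : ℤ[X]), h.Monic → h.natDegree = e →
  (h.map (Int.castRingHom ℚ)).Separable → ∀ B : ℝ, 1 ≤ B → (∀ r ∈ Rt h, ‖r‖ ≤ B) →
  ∀ U : ℤ, 0 < U → ∀ (K : Type) [Field K] [NumberField K], Module.finrank ℚ K < 2 ^ (e - 1) →
  ∀ (D : K) (ρ : K[X]), D ≠ 0 → h.map (Int.castRingHom K) ∣ C D * ρ ^ 2 - (C (U : K) - X) →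
  (U : ℝ) ≤ C₀ * B ^ k₀

/-- the final result of this part -/
def RUNGE : Prop := ∀ e : ℕ, 2 ≤ e → ∃ C₀ k₀ : ℕ, ∀ (h : ℤ[X]) (H : ℕ), h.natDegree = e →
  (h.map (Int.castRingHom ℚ)).Separable → 1 ≤ H → (∀ i, |h.coeff i| ≤ (H : ℤ)) →
  ∀ (x : ℤ) (K : Type) [Field K] [NumberField K], Module.finrank ℚ K < 2 ^ (e - 1) →
  ∀ (D : K) (ρ : K[X]), D ≠ 0 → h.map (Int.castRingHom K) ∣ C D * ρ ^ 2 - (C (x : K) - X) →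
  |(x : ℝ)| ≤ C₀ * (H : ℝ) ^ k₀

end Pool.Agent.Y674.HY
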