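import Mathlib
import Pool.Agent.Y674.HY.Stm2

/-!
Assembly of part 2: Runge's method on the two-covering.
-/

set_option autoImplicit false

open Finset Polynomial

namespace Pool.Agent.Y674.HY

open NumberField

theorem runm (h1 : EXPI) (h2 : SIEG) (h3 : SMALL) (h4 : NONV) (h5 : NTR) (h6 : GALA) :
    RUNM := by
  classical
  intro e he
  obtain ⟨b, hb0, hb⟩ := h1
  obtain ⟨k, κ, C₀, k₀, hκ, hC₀, hsieg⟩ := h2 e he b
  obtain ⟨C₂, hC₂, hexp⟩ := hb κ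
  obtain ⟨C₁, k₁, hsmall⟩ := h3 e he b k κ hκ C₂ hC₂
  obtain ⟨C₃, k₃, hnonv⟩ := h4 e k
  refine ⟨2 + C₁ * C₀ ^ k₁ + C₃ * C₀ ^ k₃, 1 + (k₀ + 1) * (k₁ + k₃), ?_⟩
  intro h hmon hdeg hsep B hB hroot U hU K _ _ hK D ρ hD hdvd
  by_contra hcon
  push Not at hcon
  set T : ℝ := B ^ (1 + (k₀ + 1) * (k₁ + k₃)) with hT
  have hB0 : (0 : ℝ) < B := by linarith
  have hC₀R : (1 : ℝ) ≤ C₀ := by exact_mod_cast hC₀
  have hBT : B ≤ T := by
    calc B = B ^ 1 := (pow_one _).symm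
      _ ≤ T := pow_le_pow_right₀ hB (by omega)
  have hT1 : B ^ ((k₀ + 1) * k₁) ≤ T := pow_le_pow_right₀ hB (by nlinarith)
  have hT3 : B ^ ((k₀ + 1) * k₃) ≤ T := pow_le_pow_right₀ hB (by nlinarith)
  have hT0 : 0 < T := by positivity
  have hc : (((2 + C₁ * C₀ ^ k₁ + C₃ * C₀ ^ k₃ : ℕ)) : ℝ) * T =
      2 * T + C₁ * C₀ ^ k₁ * T + C₃ * C₀ ^ k₃ * T := by
    push_cast
    ring
  rw [hc] at hcon
  have hp1 : (0 : ℝ) ≤ C₁ * C₀ ^ k₁ * T := by positivity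
  have hp3 : (0 : ℝ) ≤ C₃ * C₀ ^ k₃ * T := by positivity
  have hUB : 2 * B < U := by linarith
  set V : ℤ := 4 * U with hV
  have hVR : (V : ℝ) = 4 * U := by rw [hV]; push_cast; ring
  have hV0 : 0 < V := by omega
  have hV0R : (0 : ℝ) < V := by exact_mod_cast hV0
  set v : ℝ := Real.sqrt V with hv
  have hv0 : 0 < v := Real.sqrt_pos.2 hV0R
  have hv2 : v ^ 2 = V := Real.sq_sqrt hV0R.le
  have hv2C : (v : ℂ) ^ 2 = (V : ℂ) := by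
    rw [← Complex.ofReal_pow, hv2, Complex.ofReal_intCast]
  -- the square roots
  have hθ : ∀ r : ℂ, ∃ θ : ℂ, r ∈ Rt h → θ ^ 2 = (V : ℂ) - 4 * r ∧
      ‖θ - v * ∑ l ∈ Finset.range (κ + 1), (b l : ℂ) * (r / (V : ℂ)) ^ l‖ ≤
        C₂ * v * (B / V) ^ (κ + 1) := by
    intro r
    by_cases hr : r ∈ Rt h
    · obtain ⟨θ, h7, h8⟩ := hexp v r hv0 (by
        rw [hv2, hVR]
        have := hroot r hr
        linarith)
      refine ⟨θ, fun _ => ⟨?_, ?_⟩⟩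
      · rw [h7, hv2C]
      · rw [hv2C, hv2] at h8
        refine h8.trans ?_
        have h9 := hroot r hr
        gcongr
    · exact ⟨0, fun h9 => absurd h9 hr⟩
  choose θ hθ using hθ
  obtain ⟨L, _, _, _, ψ, z, s, π, ξ, S, ε₀, hz, hzr, hzB, hs2, hsθ, hgz, hgs, hπ, hξ, hπ1, hS,
    hSε⟩ := h6 e (by omega) h hmon hdeg hsep B hroot U (by linarith) K D ρ hD hdvd θ (by
      intro r hr
      rw [(hθ r hr).1, hV]
      push_cast
      ring)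
  obtain ⟨η, hη⟩ := h5 (L ≃ₐ[ℚ] L) e (by omega) π ξ hπ hξ hπ1 S ε₀ (lt_of_le_of_lt hS hK) hSε
  obtain ⟨P, hP0, hPd, hPB, hPη⟩ := hsieg L z B hB hzB η
  set W : ℝ := C₀ * B ^ k₀ with hW
  have hW1 : 1 ≤ W := by
    have : (1 : ℝ) ≤ B ^ k₀ := one_le_pow₀ hB
    nlinarith
  have hBW : B * W = C₀ * B ^ (k₀ + 1) := by
    rw [hW]
    ring
  have hpow : ∀ n : ℕ, (B * W) ^ n = C₀ ^ n * B ^ ((k₀ + 1) * n) := by
    intro n
    rw [hBW, mul_pow, ← pow_mul]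
  have hval := hsmall L ψ z s V B W hV0 hB hW1 hzB (by
      intro i
      rw [hsθ i]
      exact (hθ _ (hzr i)).2) π ξ hgz hgs P hPd hPB (fun g => hPη (ξ g) (hη g).1 (hη g).2) (by
      rw [hpow, hVR]
      have h7 : (C₁ : ℝ) * (C₀ ^ k₁ * B ^ ((k₀ + 1) * k₁)) ≤ C₁ * C₀ ^ k₁ * T := by
        rw [mul_assoc]
        gcongr
      linarith)
  have hfin := hnonv L z s V B W hB hW1 hz hzB hs2 P hP0 hPd hPB hval
  rw [abs_of_pos hV0R, hpow, hVR] at hfin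
  have h7 : (C₃ : ℝ) * (C₀ ^ k₃ * B ^ ((k₀ + 1) * k₃)) ≤ C₃ * C₀ ^ k₃ * T := by
    rw [mul_assoc]
    gcongr
  linarith

end Pool.Agent.Y674.HY
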