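import Mathlib
import Pool.Agent.Y674.HY.Fin
import Pool.Agent.Y961.HY.Setup
import Pool.Agent.Y43.HY.Est
import Pool.Agent.Y824.HY.RootKey
import Pool.Agent.Y518.HY.Apx
import Pool.Agent.Y908.HY.Cry
import Pool.Agent.Y908.HY.TrcQuad
import Pool.Agent.Y232.HY.Conj

/-!
# The Hall-Lang-Vojta height bound for the integral points that are divisible by two over a number field

Let `f` be an integral polynomial of odd degree `d = 2 g + 1` without multiple roots, with leading
coefficient `a`, and `P = (x, y)` an integral point of `y ^ 2 = f(x)`. If the point `P - ∞` of the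
Jacobian `J` is divisible by two in `J(K)`, `K` any number field, that is, if `a (x - X)` is a square
modulo `f` over `K` (two-descent), then `h(x) ≤ C₁(d) h(f) + C₂(d, K)`.

Proof. Let `ρ ^ 2 = a (x - X)` modulo `f`. The trace `w` of `ρ` is an integer of `K`, and its
conjugates are `N_σ √(a x)` up to a small error, with odd integers `N_σ`; by the norm of `ρ`, which is
rational, the `N_σ` agree modulo 4. By Schmidt's subspace theorem the vectors of the `N_σ` and their
Galois conjugates span a space of dimension at most two; a crystallographic lemma (the congruence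
modulo 4 excludes all rotations) then shows that there are at most two such vectors, and that `w`
has at most two different conjugates. Their sum is a rational integer which is near to
`N √(a x)`, `N ≠ 0`, and the structure theorem of the starting file `ApproximableSqrt` gives the
bound.
-/

set_option autoImplicit false

namespace Pool.Agent.Y674.HY.HalvesOverNF

open Polynomial

/-- `a (x - X)`, `a` the leading coefficient of `f`, is a square modulo `f` over `K`: for an integral
point `P = (x, y)`, `y ≠ 0`, of `y ^ 2 = f(x)` and odd degree of `f` this means that `P - ∞` is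
divisible by two in the group of the `K`-rational points of the Jacobian. -/
def SquareMod (K : Type) [Field K] (f : ℤ[X]) (x : ℤ) : Prop :=
  ∃ ρ : K[X], f.map (Int.castRingHom K) ∣ ρ ^ 2 - C (f.leadingCoeff : K) * (C (x : K) - X)

open Pool.Agent.Y674.HY in
theorem key : KEY :=
  Pool.Agent.Y824.HY.key Pool.Agent.Y961.HY.setup Pool.Agent.Y43.HY.est Pool.Agent.Y824.HY.root

/-- For every odd `d ≥ 3` there is `C₁` such that for every number field `K` there is `C₂` with
`h(x) ≤ C₁ h(f) + C₂` for all integral polynomials `f` of degree `d` without multiple roots and all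
integral points `(x, y)` of `y ^ 2 = f(x)` such that `a (x - X)` is a square modulo `f` over `K`. -/
theorem result (d : ℕ) (hd : Odd d) (hd3 : 3 ≤ d) : ∃ C₁ : ℝ,
    ∀ (K : Type) [Field K] [NumberField K], ∃ C₂ : ℝ,
    ∀ f : ℤ[X], f.natDegree = d → (f.map (Int.castRingHom ℚ)).Separable →
    ∀ x y : ℤ, y ^ 2 = f.eval x → SquareMod K f x →
      Real.log (max |(x : ℝ)| 1) ≤
        C₁ * Real.log (max ((f.support.sup (fun i => (f.coeff i).natAbs) : ℕ) : ℝ) 1) + C₂ := by
  obtain ⟨k, h2⟩ := Pool.Agent.Y674.HY.partB key Pool.Agent.Y518.HY.apx Pool.Agent.Y908.HY.quad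
    Pool.Agent.Y908.HY.cry Pool.Agent.Y232.HY.conj d hd hd3
  refine ⟨k, ?_⟩
  intro K _ _
  obtain ⟨C, hC⟩ := h2 K
  refine ⟨Real.log (max (C : ℝ) 1), ?_⟩
  rintro f hf hs x y hy ⟨ρ, hρ⟩
  have hf0 : f ≠ 0 := by
    rintro rfl
    rw [natDegree_zero] at hf
    omega
  exact Pool.Agent.Y674.HY.log_form f hf0 x C k
    (hC f _ x y ⟨hf, hs, Pool.Agent.Y674.HY.mx_pos f hf0, Pool.Agent.Y674.HY.mx_coeff f, hy⟩ ρ hρ)

end Pool.Agent.Y674.HY.HalvesOverNF
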